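import Mathlib

/-! Definitions for problem MP_11a02e_co: the graphs `G_{n,k,b}` and the bandwidth. -/

namespace Pool.Agent.MP_11a02e_co

/-- The vertices of `G_{n,k,b}`: the `k`-element subsets `X` of `{0,...,n}` with
`max X - min X ≤ b`, that is with `x - y ≤ b` for all `x, y ∈ X`. -/
def verts (n k b : ℕ) : Finset (Finset ℕ) :=
  ((Finset.range (n + 1)).powersetCard k).filter (fun X => ∀ x ∈ X, ∀ y ∈ X, x ≤ y + b)

/-- The graph `G_{n,k,b}`: distinct vertices `X, Y` are adjacent iff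
`max (X ∪ Y) - min (X ∪ Y) ≤ b`. -/
def graph (n k b : ℕ) : SimpleGraph (verts n k b) where
  Adj X Y := X ≠ Y ∧ ∀ x ∈ (X : Finset ℕ) ∪ (Y : Finset ℕ),
    ∀ y ∈ (X : Finset ℕ) ∪ (Y : Finset ℕ), x ≤ y + b
  symm := ⟨fun X Y h => ⟨h.1.symm, by rw [Finset.union_comm]; exact h.2⟩⟩
  loopless := ⟨fun _ h => h.1 rfl⟩

/-- The bandwidth of a finite graph: the least `B` such that some numbering `f` of the vertices
satisfies `|f u - f v| ≤ B` for all edges `u v`. -/
noncomputable def bandwidth {V : Type} [Fintype V] (G : SimpleGraph V) : ℕ :=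
  sInf {B : ℕ | ∃ f : V ≃ Fin (Fintype.card V), ∀ u v, G.Adj u v →
    |(((f u : ℕ) : ℤ)) - ((f v : ℕ) : ℤ)| ≤ (B : ℤ)}

end Pool.Agent.MP_11a02e_co
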