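import Mathlib
import Pool.Agent.Lib.MP_11a02e_co.Defs

/-! Interval scheduling by Hall's theorem. -/

namespace Pool.Agent.MP_11a02e_co

open Finset

lemma interval_hall_aux {V : Type} [Fintype V] [DecidableEq V] (r D : V → ℤ)
    (h : ∀ s t : ℤ, (∃ v, s ≤ r v ∧ D v ≤ t) →
      ((univ.filter (fun v => s ≤ r v ∧ D v ≤ t)).card : ℤ) ≤ t - s + 1) :
    ∀ m : ℕ, ∀ A : Finset V, A.card = m → A.card ≤ (A.biUnion (fun v => Icc (r v) (D v))).card := by
  have hrD : ∀ v, r v ≤ D v := by
    intro v
    have h1 := h (r v) (D v) ⟨v, le_refl _, le_refl _⟩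
    have h2 : 0 < (univ.filter (fun u => r v ≤ r u ∧ D u ≤ D v)).card :=
      card_pos.mpr ⟨v, by simp⟩
    have h3 : (1 : ℤ) ≤ ((univ.filter (fun u => r v ≤ r u ∧ D u ≤ D v)).card : ℤ) := by
      exact_mod_cast h2
    linarith
  intro m
  induction m using Nat.strong_induction_on with
  | _ m ih =>
    intro A hA
    rcases A.eq_empty_or_nonempty with hAe | hAne
    · rw [hAe]; simp
    obtain ⟨v0, hv0A, hv0⟩ := A.exists_min_image r hAne
    set U := A.biUnion (fun v => Icc (r v) (D v)) with hU
    -- the end of the first run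
    obtain ⟨v1, hv1A, hv1⟩ := A.exists_max_image D hAne
    have hex : ∃ i : ℕ, r v0 + i + 1 ∉ U := by
      refine ⟨(D v1 - r v0).toNat, ?_⟩
      have h0 : r v0 ≤ D v1 := le_trans (hrD v0) (hv1 v0 hv0A)
      rw [Int.toNat_of_nonneg (by linarith)]
      intro hmem
      rw [hU, mem_biUnion] at hmem
      obtain ⟨u, huA, hu⟩ := hmem
      rw [mem_Icc] at hu
      have := hv1 u huA
      linarith
    classical
    obtain ⟨i, hi, himin⟩ : ∃ i : ℕ, r v0 + i + 1 ∉ U ∧ ∀ j < i, r v0 + j + 1 ∈ U :=
      ⟨Nat.find hex, Nat.find_spec hex, fun j hj => by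
        have := Nat.find_min hex hj
        push Not at this
        exact this⟩
    set s : ℤ := r v0 with hs
    set t : ℤ := s + i with ht
    have hrun : Icc s t ⊆ U := by
      intro x hx
      rw [mem_Icc] at hx
      rcases eq_or_lt_of_le hx.1 with hxs | hxs
      · rw [hU, mem_biUnion]
        exact ⟨v0, hv0A, by rw [mem_Icc, ← hxs]; exact ⟨le_refl _, hrD v0⟩⟩
      · have h1 : x = s + ((x - s - 1).toNat : ℕ) + 1 := by
          rw [Int.toNat_of_nonneg (by linarith)]; ring
        rw [h1]
        apply himin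
        have h2 : ((x - s - 1).toNat : ℤ) < (i : ℤ) := by
          rw [Int.toNat_of_nonneg (by linarith)]; linarith
        exact_mod_cast h2
    set A1 := A.filter (fun v => D v ≤ t) with hA1
    set A2 := A.filter (fun v => ¬ D v ≤ t) with hA2
    have hcard : A1.card + A2.card = A.card := card_filter_add_card_filter_not _
    -- `v0 ∈ A1`
    have hv0A1 : v0 ∈ A1 := by
      rw [hA1, mem_filter]
      refine ⟨hv0A, ?_⟩
      by_contra hcon
      push Not at hcon
      apply hi
      rw [hU, mem_biUnion]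
      refine ⟨v0, hv0A, ?_⟩
      rw [mem_Icc]
      constructor
      · have : (0 : ℤ) ≤ (i : ℤ) := by positivity
        linarith
      · linarith
    have hA2r : ∀ v ∈ A2, t + 1 < r v := by
      intro v hv
      rw [hA2, mem_filter] at hv
      obtain ⟨hvA, hvD⟩ := hv
      push Not at hvD
      by_contra hcon
      push Not at hcon
      apply hi
      rw [hU, mem_biUnion]
      refine ⟨v, hvA, ?_⟩
      rw [mem_Icc]
      constructor <;> linarith
    have hA1card : (A1.card : ℤ) ≤ t - s + 1 := by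
      have h1 := h s t ⟨v0, le_refl _, (mem_filter.mp hv0A1).2⟩
      refine le_trans ?_ h1
      have : A1 ⊆ univ.filter (fun v => s ≤ r v ∧ D v ≤ t) := by
        intro v hv
        rw [hA1, mem_filter] at hv
        rw [mem_filter]
        exact ⟨mem_univ _, hv0 v hv.1, hv.2⟩
      exact_mod_cast card_le_card this
    have hA2lt : A2.card < m := by
      rw [← hA, ← hcard]
      have : 0 < A1.card := card_pos.mpr ⟨v0, hv0A1⟩
      omega
    have hA2card := ih A2.card hA2lt A2 rfl
    set U2 := A2.biUnion (fun v => Icc (r v) (D v)) with hU2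
    have hdisj : Disjoint (Icc s t) U2 := by
      rw [disjoint_left]
      intro x hx hx2
      rw [mem_Icc] at hx
      rw [hU2, mem_biUnion] at hx2
      obtain ⟨v, hv, hxv⟩ := hx2
      rw [mem_Icc] at hxv
      have := hA2r v hv
      linarith
    have hsub : Icc s t ∪ U2 ⊆ U := by
      apply union_subset hrun
      rw [hU, hU2]
      exact biUnion_subset_biUnion_of_subset_left _ (filter_subset _ _)
    have h5 := card_le_card hsub
    rw [card_union_of_disjoint hdisj, Int.card_Icc] at h5
    have h6 : ((t + 1 - s).toNat : ℤ) = t + 1 - s := by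
      apply Int.toNat_of_nonneg
      have : (0 : ℤ) ≤ (i : ℤ) := by positivity
      linarith
    have h7 : A1.card ≤ (t + 1 - s).toNat := by
      have : (A1.card : ℤ) ≤ ((t + 1 - s).toNat : ℤ) := by rw [h6]; linarith
      exact_mod_cast this
    omega

/-- Interval scheduling: jobs `v` with windows `[r v, D v]`, at most `t - s + 1` of which lie in
each interval `[s,t]`, can be put in distinct integer slots. -/
lemma interval_hall {V : Type} [Fintype V] [DecidableEq V] (r D : V → ℤ)
    (h : ∀ s t : ℤ, (∃ v, s ≤ r v ∧ D v ≤ t) →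
      ((univ.filter (fun v => s ≤ r v ∧ D v ≤ t)).card : ℤ) ≤ t - s + 1) :
    ∃ f : V → ℤ, Function.Injective f ∧ ∀ v, r v ≤ f v ∧ f v ≤ D v := by
  obtain ⟨f, hf, hf2⟩ := (Finset.all_card_le_biUnion_card_iff_exists_injective
    (fun v => Icc (r v) (D v))).mp (fun A => interval_hall_aux r D h A.card A rfl)
  exact ⟨f, hf, fun v => by have := hf2 v; rwa [mem_Icc] at this⟩

lemma strictMono_sub_le {N : ℕ} (g : Fin N → ℤ) (hg : StrictMono g) (i j : Fin N) (hij : i ≤ j) :
    ((j : ℕ) : ℤ) - ((i : ℕ) : ℤ) ≤ g j - g i := by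
  obtain ⟨i, hi⟩ := i
  obtain ⟨j, hj⟩ := j
  have hij' : i ≤ j := hij
  show (j : ℤ) - (i : ℤ) ≤ g ⟨j, hj⟩ - g ⟨i, hi⟩
  clear hij
  induction j, hij' using Nat.le_induction with
  | base => simp
  | succ j hj' ih =>
    have h1 := ih (by omega)
    have h2 : g ⟨j, by omega⟩ < g ⟨j + 1, hj⟩ := hg (by show j < j + 1; omega)
    push_cast
    linarith

/-- From an injective integer labelling to a numbering that does not increase distances. -/
lemma exists_numbering {V : Type} [Fintype V] (f : V → ℤ) (hf : Function.Injective f) :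
    ∃ e : V ≃ Fin (Fintype.card V), ∀ u v,
      |(((e u : ℕ) : ℤ)) - ((e v : ℕ) : ℤ)| ≤ |f u - f v| := by
  classical
  set S : Finset ℤ := univ.image f with hS
  have hcard : S.card = Fintype.card V := by
    rw [hS, card_image_of_injective _ hf, card_univ]
  set o := S.orderIsoOfFin hcard with ho
  have hmem : ∀ v, f v ∈ S := fun v => by rw [hS]; exact mem_image_of_mem _ (mem_univ v)
  let e1 : V → Fin (Fintype.card V) := fun v => o.symm ⟨f v, hmem v⟩
  have hinj : Function.Injective e1 := by
    intro u v huv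
    have h1 : (⟨f u, hmem u⟩ : S) = ⟨f v, hmem v⟩ := o.symm.injective huv
    exact hf (by simpa using congrArg Subtype.val h1)
  have hbij : Function.Bijective e1 :=
    (Fintype.bijective_iff_injective_and_card e1).mpr ⟨hinj, by simp⟩
  refine ⟨Equiv.ofBijective e1 hbij, ?_⟩
  have hg : StrictMono (fun i : Fin (Fintype.card V) => ((o i : S) : ℤ)) := by
    intro i j hij
    exact o.strictMono hij
  have hval : ∀ v, ((o (e1 v) : S) : ℤ) = f v := by
    intro v
    show ((o (o.symm ⟨f v, hmem v⟩) : S) : ℤ) = f v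
    rw [OrderIso.apply_symm_apply]
  intro u v
  show |(((e1 u : ℕ) : ℤ)) - ((e1 v : ℕ) : ℤ)| ≤ |f u - f v|
  rw [← hval u, ← hval v]
  rcases le_total (e1 u) (e1 v) with h | h
  · have h1 := strictMono_sub_le _ hg _ _ h
    have h2 : ((e1 u : ℕ) : ℤ) ≤ ((e1 v : ℕ) : ℤ) := by exact_mod_cast h
    rw [abs_sub_comm, abs_of_nonneg (by linarith)]
    refine le_trans h1 ?_
    rw [abs_sub_comm]
    exact le_abs_self _
  · have h1 := strictMono_sub_le _ hg _ _ h
    have h2 : ((e1 v : ℕ) : ℤ) ≤ ((e1 u : ℕ) : ℤ) := by exact_mod_cast h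
    rw [abs_of_nonneg (by linarith)]
    exact le_trans h1 (le_abs_self _)

end Pool.Agent.MP_11a02e_co
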