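import Mathlib
import Pool.Agent.Lib.MP_11a02e_co.Defs

/-! The convex sequence `φ` and the potential `ψ`. -/

namespace Pool.Agent.MP_11a02e_co

open Finset

/-- `φ(d) = C(b+1-d,k) - C(b+1,k) + d C(b,k-1)` (with `k = j+2`). -/
def phi (j b d : ℕ) : ℤ :=
  ((b + 1 - d).choose (j + 2) : ℤ) - ((b + 1).choose (j + 2) : ℤ) + d * (b.choose (j + 1) : ℤ)

lemma phi_zero (j b : ℕ) : phi j b 0 = 0 := by simp [phi]

lemma phi_succ (j b d : ℕ) :
    phi j b (d + 1) - phi j b d = (b.choose (j + 1) : ℤ) - ((b - d).choose (j + 1) : ℤ) := by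
  unfold phi
  rcases Nat.lt_or_ge b d with h | h
  · have h1 : b + 1 - (d + 1) = 0 := by omega
    have h2 : b + 1 - d = 0 := by omega
    have h3 : b - d = 0 := by omega
    rw [h1, h2, h3]
    simp
    ring
  · have h1 : b + 1 - (d + 1) = b - d := by omega
    have h2 : b + 1 - d = (b - d) + 1 := by omega
    have h3 : ((b - d) + 1).choose (j + 2) = (b - d).choose (j + 1) + (b - d).choose (j + 2) :=
      Nat.choose_succ_succ _ _
    rw [h1, h2, h3]
    push_cast
    ring

lemma phi_succ_nonneg (j b d : ℕ) : 0 ≤ phi j b (d + 1) - phi j b d := by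
  rw [phi_succ]
  have : (b - d).choose (j + 1) ≤ b.choose (j + 1) := Nat.choose_le_choose _ (Nat.sub_le _ _)
  have : ((b - d).choose (j + 1) : ℤ) ≤ (b.choose (j + 1) : ℤ) := by exact_mod_cast this
  linarith

lemma phi_succ_le (j b d : ℕ) : phi j b (d + 1) - phi j b d ≤ (b.choose (j + 1) : ℤ) := by
  rw [phi_succ]
  have : (0 : ℤ) ≤ ((b - d).choose (j + 1) : ℤ) := by positivity
  linarith

lemma phi_mono (j b : ℕ) : Monotone (phi j b) :=
  monotone_nat_of_le_succ (fun d => by have := phi_succ_nonneg j b d; linarith)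

lemma phi_nonneg (j b d : ℕ) : 0 ≤ phi j b d := by
  rw [← phi_zero j b]; exact phi_mono j b (Nat.zero_le d)

/-- convexity -/
lemma phi_convex (j b : ℕ) {x y : ℕ} (hxy : x ≤ y) (t : ℕ) :
    phi j b (x + t) - phi j b x ≤ phi j b (y + t) - phi j b y := by
  induction t with
  | zero => simp
  | succ t ih =>
    have h1 := phi_succ j b (x + t)
    have h2 := phi_succ j b (y + t)
    have h3 : (b - (y + t)).choose (j + 1) ≤ (b - (x + t)).choose (j + 1) :=
      Nat.choose_le_choose _ (by omega)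
    have h4 : ((b - (y + t)).choose (j + 1) : ℤ) ≤ ((b - (x + t)).choose (j + 1) : ℤ) := by
      exact_mod_cast h3
    rw [← add_assoc, ← add_assoc]
    linarith

lemma phi_superadd (j b u d : ℕ) : phi j b u + phi j b d ≤ phi j b (u + d) := by
  have h := phi_convex j b (Nat.zero_le u) d
  rw [phi_zero, zero_add] at h
  linarith

lemma phi_exchange (j b u d w : ℕ) (hu : u ≤ b) (hd : d ≤ b) (h : u + d = b + w) :
    phi j b u + phi j b d ≤ phi j b b + phi j b w := by
  have h1 : w ≤ d := by omega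
  have h2 := phi_convex j b h1 (b - d)
  have e1 : w + (b - d) = u := by omega
  have e2 : d + (b - d) = b := by omega
  rw [e1, e2] at h2
  linarith

/-- The potential `ψ(s)`. -/
def psi (j b : ℕ) (E : ℤ) (s : ℕ) : ℤ :=
  ((s / b : ℕ) : ℤ) * (phi j b b - E) + max 0 (phi j b (s % b) - E)

lemma psi_eq (j b : ℕ) (E : ℤ) (i u : ℕ) (hu : u < b) :
    psi j b E (i * b + u) = (i : ℤ) * (phi j b b - E) + max 0 (phi j b u - E) := by
  unfold psi
  have hb : 0 < b := by omega
  have h1 : (i * b + u) / b = i := by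
    rw [mul_comm, Nat.mul_add_div hb, Nat.div_eq_of_lt hu, add_zero]
  have h2 : (i * b + u) % b = u := by
    rw [mul_comm, Nat.mul_add_mod, Nat.mod_eq_of_lt hu]
  rw [h1, h2]

lemma exists_block (b : ℕ) (hb : 0 < b) (s : ℕ) : ∃ i u : ℕ, u < b ∧ s = i * b + u :=
  ⟨s / b, s % b, Nat.mod_lt _ hb, by rw [mul_comm]; exact (Nat.div_add_mod s b).symm⟩

lemma psi_nonneg (j b : ℕ) (E : ℤ) (hE : E ≤ phi j b b) (s : ℕ) : 0 ≤ psi j b E s := by
  unfold psi
  have h1 : 0 ≤ ((s / b : ℕ) : ℤ) * (phi j b b - E) := mul_nonneg (by positivity) (by linarith)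
  have h2 : 0 ≤ max 0 (phi j b (s % b) - E) := le_max_left _ _
  linarith

/-- `ψ(s+d) ≥ ψ(s) + φ(d) - E` for `d ≤ b`. -/
lemma psi_add (j b : ℕ) (hb : 0 < b) (E : ℤ) (hE0 : 0 ≤ E) (s d : ℕ)
    (hd : d ≤ b) : psi j b E s + phi j b d - E ≤ psi j b E (s + d) := by
  obtain ⟨i, u, hu, rfl⟩ := exists_block b hb s
  rcases Nat.lt_or_ge (u + d) b with h | h
  · rw [add_assoc, psi_eq j b E i u hu, psi_eq j b E i (u + d) h]
    have h1 := phi_superadd j b u d
    have h2 := phi_nonneg j b u
    have h3 := phi_nonneg j b d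
    rcases le_total (phi j b u - E) 0 with h4 | h4
    · rw [max_eq_left h4]
      have h5 := le_max_right 0 (phi j b (u + d) - E)
      linarith
    · rw [max_eq_right h4]
      have h5 := le_max_right 0 (phi j b (u + d) - E)
      linarith
  · obtain ⟨w, hw⟩ : ∃ w, u + d = b + w := ⟨u + d - b, by omega⟩
    have hwb : w < b := by omega
    have e : i * b + u + d = (i + 1) * b + w := by rw [add_assoc, hw]; ring
    rw [e, psi_eq j b E i u hu, psi_eq j b E (i + 1) w hwb]
    have h1 := phi_exchange j b u d w hu.le hd hw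
    have h3 := phi_mono j b hd
    have h5 := le_max_left 0 (phi j b w - E)
    have h6 := le_max_right 0 (phi j b w - E)
    push_cast
    rcases le_total (phi j b u - E) 0 with h4 | h4
    · rw [max_eq_left h4]; linarith
    · rw [max_eq_right h4]; linarith

/-- increments of `ψ` lie in `[0, C(b,k-1)]` -/
lemma psi_succ (j b : ℕ) (hb : 0 < b) (E : ℤ) (hE0 : 0 ≤ E) (hE : E ≤ phi j b b) (s : ℕ) :
    0 ≤ psi j b E (s + 1) - psi j b E s ∧
      psi j b E (s + 1) - psi j b E s ≤ (b.choose (j + 1) : ℤ) := by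
  obtain ⟨i, u, hu, rfl⟩ := exists_block b hb s
  have h1 := phi_succ_nonneg j b u
  have h2 := phi_succ_le j b u
  have hρ : (0 : ℤ) ≤ (b.choose (j + 1) : ℤ) := by positivity
  rcases Nat.lt_or_ge (u + 1) b with h | h
  · rw [add_assoc, psi_eq j b E i u hu, psi_eq j b E i (u + 1) h]
    rcases le_total (phi j b u - E) 0 with h4 | h4
    · rw [max_eq_left h4]
      rcases le_total (phi j b (u + 1) - E) 0 with h5 | h5
      · rw [max_eq_left h5]; constructor <;> linarith
      · rw [max_eq_right h5]; constructor <;> linarith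
    · rw [max_eq_right h4]
      rw [max_eq_right (by linarith : (0 : ℤ) ≤ phi j b (u + 1) - E)]
      constructor <;> linarith
  · have hub : u + 1 = b := by omega
    have e : i * b + u + 1 = (i + 1) * b + 0 := by rw [add_assoc, hub]; ring
    rw [e, psi_eq j b E i u hu, psi_eq j b E (i + 1) 0 hb, phi_zero]
    rw [hub] at h1 h2
    rw [max_eq_left (by linarith : (0 : ℤ) - E ≤ 0)]
    push_cast
    rcases le_total (phi j b u - E) 0 with h4 | h4
    · rw [max_eq_left h4]; constructor <;> linarith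
    · rw [max_eq_right h4]; constructor <;> linarith

lemma psi_mono (j b : ℕ) (hb : 0 < b) (E : ℤ) (hE0 : 0 ≤ E) (hE : E ≤ phi j b b) :
    Monotone (psi j b E) :=
  monotone_nat_of_le_succ (fun s => by have := (psi_succ j b hb E hE0 hE s).1; linarith)

/-- `ψ(n-b) ≤ E` when `n - b = (q-1) b + r`. -/
lemma psi_le (j b : ℕ) (E : ℤ) (i r : ℕ) (hr : r < b)
    (h1 : (i : ℤ) * phi j b b ≤ (i + 1) * E)
    (h2 : (i : ℤ) * phi j b b + phi j b r ≤ (i + 2) * E) : psi j b E (i * b + r) ≤ E := by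
  rw [psi_eq j b E i r hr]
  rcases le_total (phi j b r - E) 0 with h4 | h4
  · rw [max_eq_left h4]
    have : (i : ℤ) * (phi j b b - E) = (i : ℤ) * phi j b b - i * E := by ring
    linarith
  · rw [max_eq_right h4]
    have : (i : ℤ) * (phi j b b - E) = (i : ℤ) * phi j b b - i * E := by ring
    linarith

end Pool.Agent.MP_11a02e_co
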