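import Mathlib
import Pool.Agent.Lib.MP_11a02e_co.Defs
import Pool.Agent.Lib.MP_11a02e_co.Hall
import Pool.Agent.Lib.MP_11a02e_co.Psi

/-! The finite bandwidth bound. -/

namespace Pool.Agent.MP_11a02e_co

open Finset

/-- Sets in `verts n k b` inside `[a, c]`. -/
def inside (n k b a c : ℕ) : Finset (Finset ℕ) :=
  (verts n k b).filter (fun X => X ⊆ Icc a c)

lemma inside_card_le_choose (n k b a c : ℕ) :
    (inside n k b a c).card ≤ (c + 1 - a).choose k := by
  have h : inside n k b a c ⊆ (Icc a c).powersetCard k := by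
    intro X hX
    unfold inside verts at hX
    rw [mem_filter, mem_filter, mem_powersetCard] at hX
    rw [mem_powersetCard]
    exact ⟨hX.2, hX.1.1.2⟩
  refine le_trans (card_le_card h) ?_
  rw [card_powersetCard, Nat.card_Icc]

lemma inside_succ (n j b a c : ℕ) :
    (inside n (j + 2) b a (c + 1)).card ≤ (inside n (j + 2) b a c).card + b.choose (j + 1) := by
  have h : inside n (j + 2) b a (c + 1) ⊆ inside n (j + 2) b a c ∪
      ((Icc (c + 1 - b) c).powersetCard (j + 1)).image (insert (c + 1)) := by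
    intro X hX
    have hX' := hX
    unfold inside verts at hX
    rw [mem_filter, mem_filter, mem_powersetCard] at hX
    obtain ⟨⟨⟨h1, h2⟩, h3⟩, h4⟩ := hX
    rw [mem_union]
    by_cases hc : c + 1 ∈ X
    · right
      rw [mem_image]
      refine ⟨X.erase (c + 1), ?_, insert_erase hc⟩
      rw [mem_powersetCard]
      refine ⟨?_, ?_⟩
      · intro x hx
        rw [mem_erase] at hx
        have h5 := h4 hx.2
        rw [mem_Icc] at h5
        have h6 := h3 (c + 1) hc x hx.2
        rw [mem_Icc]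
        omega
      · rw [card_erase_of_mem hc, h2]; rfl
    · left
      unfold inside
      rw [mem_filter]
      unfold inside at hX'
      rw [mem_filter] at hX'
      refine ⟨hX'.1, ?_⟩
      intro x hx
      have h5 := h4 hx
      rw [mem_Icc] at h5
      rw [mem_Icc]
      have : x ≠ c + 1 := fun h => hc (h ▸ hx)
      omega
  refine le_trans (card_le_card h) ?_
  refine le_trans (card_union_le _ _) ?_
  apply Nat.add_le_add_left
  refine le_trans card_image_le ?_
  rw [card_powersetCard, Nat.card_Icc]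
  apply Nat.choose_le_choose
  omega

lemma inside_card_le (n j b a d : ℕ) :
    (inside n (j + 2) b a (a + b + d)).card ≤ (b + 1).choose (j + 2) + d * b.choose (j + 1) := by
  induction d with
  | zero =>
    have h := inside_card_le_choose n (j + 2) b a (a + b)
    have e : a + b + 1 - a = b + 1 := by omega
    rw [e] at h
    simpa using h
  | succ d ih =>
    have h := inside_succ n j b a (a + b + d)
    have e : a + b + (d + 1) = a + b + d + 1 := by ring
    rw [e]
    calc _ ≤ _ := h
      _ ≤ (b + 1).choose (j + 2) + d * b.choose (j + 1) + b.choose (j + 1) :=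
          Nat.add_le_add_right ih _
      _ = _ := by ring

/-- minimum of a set of naturals -/
noncomputable def mn (X : Finset ℕ) : ℕ := sInf (X : Set ℕ)
/-- maximum of a set of naturals -/
def mx (X : Finset ℕ) : ℕ := X.sup id

lemma mn_le {X : Finset ℕ} {x : ℕ} (hx : x ∈ X) : mn X ≤ x := Nat.sInf_le hx
lemma mn_mem {X : Finset ℕ} (hX : X.Nonempty) : mn X ∈ X :=
  mem_coe.mp (Nat.sInf_mem (s := (X : Set ℕ)) hX)
lemma le_mx {X : Finset ℕ} {x : ℕ} (hx : x ∈ X) : x ≤ mx X := le_sup (f := id) hx
lemma mx_mem {X : Finset ℕ} (hX : X.Nonempty) : mx X ∈ X := by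
  obtain ⟨i, hi, h⟩ := exists_mem_eq_sup X hX id
  unfold mx; rw [h]; exact hi

/-- The finite bandwidth bound: with `n = (i+1) b + r`, `r < b`. -/
theorem finite_bound (n j b i r : ℕ) (E : ℤ) (hb : 0 < b) (hr : r < b)
    (hn : n = (i + 1) * b + r) (hE0 : 0 ≤ E) (hE : E ≤ phi j b b)
    (h1 : (i : ℤ) * phi j b b ≤ (i + 1) * E)
    (h2 : (i : ℤ) * phi j b b + phi j b r ≤ (i + 2) * E) :
    (bandwidth (graph n (j + 2) b) : ℤ) ≤ ((b + 1).choose (j + 2) : ℤ) + E := by
  classical
  -- the number of windows is `m + 1`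
  obtain ⟨m, hm⟩ : ∃ m : ℕ, m = i * b + r := ⟨_, rfl⟩
  have hnm : n = m + b := by rw [hn, hm]; ring
  set ρ : ℤ := (b.choose (j + 1) : ℤ) with hρ
  have hρ0 : 0 ≤ ρ := by rw [hρ]; positivity
  set W : ℤ := ((b + 1).choose (j + 2) : ℤ) + E with hW
  set τ : ℕ → ℤ := fun a => ρ * a + psi j b E (m - a) with hτ
  -- (1) monotone
  have hτmono : ∀ a a' : ℕ, a ≤ a' → a' ≤ m → τ a ≤ τ a' := by
    intro a a' haa ha'
    induction a', haa using Nat.le_induction with
    | base => exact le_refl _
    | succ a' haa ih =>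
      refine le_trans (ih (by omega)) ?_
      show ρ * (a' : ℤ) + psi j b E (m - a') ≤ ρ * ((a' + 1 : ℕ) : ℤ) + psi j b E (m - (a' + 1))
      have e : m - a' = (m - (a' + 1)) + 1 := by omega
      have h3 := (psi_succ j b hb E hE0 hE (m - (a' + 1))).2
      rw [e]
      push_cast
      linarith
  -- (2) forward inequality
  have hψle : ∀ s : ℕ, s ≤ m → psi j b E s ≤ E := by
    intro s hs
    refine le_trans (psi_mono j b hb E hE0 hE hs) ?_
    rw [hm]
    exact psi_le j b E i r hr h1 h2
  have hfwd : ∀ a a' : ℕ, a ≤ a' → a' ≤ m → ρ * ((a' : ℤ) - a) - E ≤ τ a' - τ a := by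
    intro a a' _ _
    have h3 := hψle (m - a) (by omega)
    have h4 := psi_nonneg j b E hE (m - a')
    show ρ * ((a' : ℤ) - a) - E ≤ (ρ * a' + psi j b E (m - a')) - (ρ * a + psi j b E (m - a))
    linarith
  -- (3) backward inequality
  have hbwd : ∀ a d : ℕ, a + d ≤ m → d ≤ b → τ (a + d) - τ a ≤ ρ * d - phi j b d + E := by
    intro a d had hd
    have h3 := psi_add j b hb E hE0 (m - (a + d)) d hd
    have e : m - (a + d) + d = m - a := by omega
    rw [e] at h3
    show (ρ * ((a + d : ℕ) : ℤ) + psi j b E (m - (a + d))) - (ρ * a + psi j b E (m - a))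
      ≤ ρ * d - phi j b d + E
    push_cast
    linarith
  -- the jobs
  set V := (verts n (j + 2) b : Finset (Finset ℕ)) with hV
  have hne : ∀ X ∈ V, X.Nonempty := by
    intro X hX
    rw [hV] at hX
    unfold verts at hX
    rw [mem_filter, mem_powersetCard] at hX
    rw [← card_pos, hX.1.2]; omega
  have hle : ∀ X ∈ V, ∀ x ∈ X, x ≤ n := by
    intro X hX x hx
    rw [hV] at hX
    unfold verts at hX
    rw [mem_filter, mem_powersetCard] at hX
    have := hX.1.1 hx
    rw [mem_range] at this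
    omega
  have hspan : ∀ X ∈ V, ∀ x ∈ X, ∀ y ∈ X, x ≤ y + b := by
    intro X hX
    rw [hV] at hX
    unfold verts at hX
    rw [mem_filter] at hX
    exact hX.2
  set amax : V → ℕ := fun X => min (mn X.1) m with hamax
  set amin : V → ℕ := fun X => mx X.1 - b with hamin
  have hamax_le : ∀ X, amax X ≤ m := fun X => min_le_right _ _
  have hamin_le : ∀ X, amin X ≤ m := by
    intro X
    have := hle X.1 X.2 _ (mx_mem (hne X.1 X.2))
    show mx X.1 - b ≤ m
    omega
  have key := interval_hall (fun X : V => τ (amax X)) (fun X : V => τ (amin X) + W - 1) (by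
    intro s t hst
    obtain ⟨X0, hX0s, hX0t⟩ := hst
    -- least window `a` with `s ≤ τ a`
    have hex1 : ∃ a : ℕ, a ≤ m ∧ s ≤ τ a := ⟨amax X0, hamax_le X0, hX0s⟩
    obtain ⟨a, ⟨ham, has⟩, hamin'⟩ : ∃ a : ℕ, (a ≤ m ∧ s ≤ τ a) ∧
        ∀ a1 : ℕ, (a1 ≤ m ∧ s ≤ τ a1) → a ≤ a1 :=
      ⟨Nat.find hex1, Nat.find_spec hex1, fun a1 h => Nat.find_min' hex1 h⟩
    -- largest window `a'` with `τ a' + W - 1 ≤ t`
    set F := (range (m + 1)).filter (fun a1 => τ a1 + W - 1 ≤ t) with hF
    have hFne : F.Nonempty := ⟨amin X0, by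
      rw [hF, mem_filter, mem_range]
      exact ⟨by have := hamin_le X0; omega, hX0t⟩⟩
    obtain ⟨a', ha'F, ha'max⟩ := F.exists_max_image id hFne
    rw [hF, mem_filter, mem_range] at ha'F
    -- every counted job lies inside `[a, a' + b]`
    have hsub : ∀ X : V, s ≤ τ (amax X) → τ (amin X) + W - 1 ≤ t → (X : Finset ℕ) ⊆ Icc a (a' + b) := by
      intro X hXs hXt x hx
      rw [mem_Icc]
      have g1 := hamin' (amax X) ⟨hamax_le X, hXs⟩
      have g2 : amin X ≤ a' := ha'max (amin X) (by
        rw [hF, mem_filter, mem_range]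
        exact ⟨by have := hamin_le X; omega, hXt⟩)
      have g3 : amax X ≤ mn X.1 := min_le_left _ _
      have g4 := mn_le hx
      have g5 := le_mx hx
      have g6 : mx X.1 - b ≤ a' := g2
      omega
    -- the count
    have hcount : (univ.filter (fun X : V => s ≤ τ (amax X) ∧ τ (amin X) + W - 1 ≤ t)).card
        ≤ (inside n (j + 2) b a (a' + b)).card := by
      apply card_le_card_of_injOn (fun X : V => (X : Finset ℕ))
      · intro X hX
        have hX' := (mem_filter.mp (mem_coe.mp hX)).2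
        apply mem_coe.mpr
        unfold inside
        rw [mem_filter]
        exact ⟨X.2, hsub X hX'.1 hX'.2⟩
      · intro X _ Y _ hXY
        exact Subtype.ext hXY
    have hcountZ : ((univ.filter (fun X : V => s ≤ τ (amax X) ∧ τ (amin X) + W - 1 ≤ t)).card : ℤ)
        ≤ ((inside n (j + 2) b a (a' + b)).card : ℤ) := by exact_mod_cast hcount
    refine le_trans hcountZ ?_
    rcases Nat.lt_or_ge a' a with hlt | hge
    · -- `a = a' + d`
      obtain ⟨d, hd⟩ : ∃ d, a = a' + d := ⟨a - a', by omega⟩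
      obtain ⟨x, hx⟩ := hne X0.1 X0.2
      have hx2 := hsub X0 hX0s hX0t hx
      rw [mem_Icc] at hx2
      have hdb : d ≤ b := by omega
      have g1 := inside_card_le_choose n (j + 2) b a (a' + b)
      have e : a' + b + 1 - a = b + 1 - d := by omega
      rw [e] at g1
      have g1Z : ((inside n (j + 2) b a (a' + b)).card : ℤ) ≤ ((b + 1 - d).choose (j + 2) : ℤ) := by
        exact_mod_cast g1
      have g2 := hbwd a' d (by omega) hdb
      rw [← hd] at g2
      have g3 : phi j b d = ((b + 1 - d).choose (j + 2) : ℤ) - ((b + 1).choose (j + 2) : ℤ)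
          + d * ρ := rfl
      have g4 : W = ((b + 1).choose (j + 2) : ℤ) + E := hW
      have g5 : ρ * (d : ℤ) = d * ρ := by ring
      linarith [ha'F.2]
    · obtain ⟨d, hd⟩ : ∃ d, a' = a + d := ⟨a' - a, by omega⟩
      have g1 := inside_card_le n j b a d
      have e : a + b + d = a' + b := by omega
      rw [e] at g1
      have g1Z : ((inside n (j + 2) b a (a' + b)).card : ℤ)
          ≤ ((b + 1).choose (j + 2) : ℤ) + d * ρ := by rw [hρ]; exact_mod_cast g1
      have g2 := hfwd a a' hge (by omega)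
      have g3 : ρ * ((a' : ℤ) - a) = d * ρ := by rw [hd]; push_cast; ring
      have g4 : W = ((b + 1).choose (j + 2) : ℤ) + E := hW
      linarith [ha'F.2])
  obtain ⟨f, hfinj, hf⟩ := key
  obtain ⟨e, he⟩ := exists_numbering f hfinj
  have hW0 : 0 ≤ W := by rw [hW]; positivity
  have hmem : W.toNat ∈ {B : ℕ | ∃ f : (verts n (j + 2) b) ≃ Fin (Fintype.card (verts n (j + 2) b)),
      ∀ u v, (graph n (j + 2) b).Adj u v →
      |(((f u : ℕ) : ℤ)) - ((f v : ℕ) : ℤ)| ≤ (B : ℤ)} := by
    refine ⟨e, ?_⟩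
    intro X Y hXY
    refine le_trans (he X Y) ?_
    rw [Int.toNat_of_nonneg hW0]
    obtain ⟨_, hun⟩ := hXY
    -- common window
    obtain ⟨a, ham, haX, haY⟩ : ∃ a : ℕ, a ≤ m ∧ (∀ x ∈ X.1, a ≤ x ∧ x ≤ a + b) ∧
        (∀ x ∈ Y.1, a ≤ x ∧ x ≤ a + b) := by
      have hXY' : (X.1 ∪ Y.1).Nonempty := (hne X.1 X.2).mono subset_union_left
      refine ⟨min (mn (X.1 ∪ Y.1)) m, min_le_right _ _, ?_, ?_⟩
      · intro x hx
        have g1 := mn_le (mem_union_left Y.1 hx)
        have g2 := hun x (mem_union_left _ hx) _ (mn_mem hXY')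
        have g3 := hle X.1 X.2 x hx
        rcases le_total (mn (X.1 ∪ Y.1)) m with h | h
        · rw [min_eq_left h]; omega
        · rw [min_eq_right h]; omega
      · intro x hx
        have g1 := mn_le (mem_union_right X.1 hx)
        have g2 := hun x (mem_union_right _ hx) _ (mn_mem hXY')
        have g3 := hle Y.1 Y.2 x hx
        rcases le_total (mn (X.1 ∪ Y.1)) m with h | h
        · rw [min_eq_left h]; omega
        · rw [min_eq_right h]; omega
    have hwin : ∀ Z : V, (∀ x ∈ Z.1, a ≤ x ∧ x ≤ a + b) → τ a ≤ f Z ∧ f Z ≤ τ a + W - 1 := by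
      intro Z hZ
      have g1 := hf Z
      have g2 := hZ _ (mn_mem (hne Z.1 Z.2))
      have g3 := hZ _ (mx_mem (hne Z.1 Z.2))
      have g4 : a ≤ amax Z := by
        show a ≤ min (mn Z.1) m
        exact le_min g2.1 ham
      have g5 : amin Z ≤ a := by
        show mx Z.1 - b ≤ a
        omega
      have g6 := hτmono a (amax Z) g4 (hamax_le Z)
      have g7 := hτmono (amin Z) a g5 ham
      constructor
      · linarith [g1.1]
      · linarith [g1.2]
    have hX2 := hwin X haX
    have hY2 := hwin Y haY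
    rw [abs_le]
    constructor <;> linarith [hX2.1, hX2.2, hY2.1, hY2.2]
  have hfinal : bandwidth (graph n (j + 2) b) ≤ W.toNat := Nat.sInf_le hmem
  have : (bandwidth (graph n (j + 2) b) : ℤ) ≤ (W.toNat : ℤ) := by exact_mod_cast hfinal
  rwa [Int.toNat_of_nonneg hW0] at this

end Pool.Agent.MP_11a02e_co
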