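import Mathlib
import Pool.Agent.Lib.MP_11a02e_co.Finite

/-! Asymptotics of binomial coefficients and of `phi`. -/

namespace Pool.Agent.MP_11a02e_co

open Filter Topology

lemma cast_choose_succ (m k : ℕ) :
    ((m.choose (k + 1) : ℕ) : ℝ) = (m.choose k : ℝ) * ((m : ℝ) - k) / (k + 1) := by
  have hk : ((k : ℝ) + 1) ≠ 0 := by positivity
  rw [eq_div_iff hk]
  have h := Nat.choose_succ_right_eq m k
  rcases Nat.lt_or_ge m k with hlt | hge
  · rw [Nat.choose_eq_zero_of_lt hlt, Nat.choose_eq_zero_of_lt (by omega : m < k + 1)]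
    simp
  · have h2 : ((m.choose (k + 1) * (k + 1) : ℕ) : ℝ) = ((m.choose k * (m - k) : ℕ) : ℝ) := by
      exact_mod_cast h
    rw [Nat.cast_mul, Nat.cast_mul, Nat.cast_sub hge] at h2
    push_cast at h2
    exact h2

lemma choose_lim (k : ℕ) (m : ℕ → ℕ) (μ : ℝ)
    (hm : Tendsto (fun n : ℕ => (m n : ℝ) / n) atTop (𝓝 μ)) :
    Tendsto (fun n : ℕ => ((m n).choose k : ℝ) / (n : ℝ) ^ k) atTop (𝓝 (μ ^ k / k.factorial)) := by
  induction k with
  | zero => simp
  | succ k ih =>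
    have h0 : Tendsto (fun n : ℕ => (k : ℝ) / n) atTop (𝓝 0) :=
      tendsto_const_div_atTop_nhds_zero_nat (k : ℝ)
    have h1 := (ih.mul (hm.sub h0)).div_const ((k : ℝ) + 1)
    have e : μ ^ k / (k.factorial : ℝ) * (μ - 0) / ((k : ℝ) + 1)
        = μ ^ (k + 1) / ((k + 1).factorial : ℝ) := by
      rw [Nat.factorial_succ]
      push_cast
      have : (k.factorial : ℝ) ≠ 0 := by positivity
      have : ((k : ℝ) + 1) ≠ 0 := by positivity
      field_simp
      ring
    rw [e] at h1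
    refine h1.congr' ?_
    filter_upwards [eventually_gt_atTop 0] with n hn
    have hn0 : (n : ℝ) ≠ 0 := by positivity
    rw [cast_choose_succ]
    field_simp
    ring

lemma phi_cast (j b d : ℕ) : ((phi j b d : ℤ) : ℝ) =
    ((b + 1 - d).choose (j + 2) : ℝ) - ((b + 1).choose (j + 2) : ℝ)
      + d * (b.choose (j + 1) : ℝ) := by
  unfold phi; push_cast; rfl

/-- limit of `φ(d)/n^k` -/
lemma phi_lim (j : ℕ) (b d : ℕ → ℕ) (β δ : ℝ)
    (hb : Tendsto (fun n : ℕ => (b n : ℝ) / n) atTop (𝓝 β))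
    (hd : Tendsto (fun n : ℕ => (d n : ℝ) / n) atTop (𝓝 δ))
    (hdb : ∀ᶠ n in atTop, d n ≤ b n) :
    Tendsto (fun n : ℕ => ((phi j (b n) (d n) : ℤ) : ℝ) / (n : ℝ) ^ (j + 2)) atTop
      (𝓝 ((β - δ) ^ (j + 2) / (j + 2).factorial - β ^ (j + 2) / (j + 2).factorial
        + δ * (β ^ (j + 1) / (j + 1).factorial))) := by
  have h1n : Tendsto (fun n : ℕ => (1 : ℝ) / n) atTop (𝓝 0) :=
    tendsto_const_div_atTop_nhds_zero_nat (1 : ℝ)
  have hb1 : Tendsto (fun n : ℕ => ((b n + 1 : ℕ) : ℝ) / n) atTop (𝓝 β) := by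
    have := hb.add h1n
    rw [add_zero] at this
    refine this.congr (fun n => ?_)
    push_cast; ring
  have hbd : Tendsto (fun n : ℕ => ((b n + 1 - d n : ℕ) : ℝ) / n) atTop (𝓝 (β - δ)) := by
    have := hb1.sub hd
    refine this.congr' ?_
    filter_upwards [hdb] with n hn
    rw [Nat.cast_sub (by omega)]
    ring
  have t1 := choose_lim (j + 2) _ _ hbd
  have t2 := choose_lim (j + 2) _ _ hb1
  have t3 := choose_lim (j + 1) _ _ hb
  have t4 := (t1.sub t2).add (hd.mul t3)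
  refine t4.congr' ?_
  filter_upwards [eventually_gt_atTop 0] with n hn
  have hn0 : (n : ℝ) ≠ 0 := by positivity
  rw [phi_cast]
  field_simp
  ring

end Pool.Agent.MP_11a02e_co
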